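import Mathlib
import Pool.Agent.K3h28.NR.Main
import Pool.Agent.K3h13.NR.Mwi
import Pool.Agent.K3h24.NR.SCHUR
import Pool.Agent.K3h60.NR.PEN0
import Pool.Agent.K3h90.NR.Span
import Pool.Agent.K3h23.NR.Link
import Pool.Agent.K3h68.NR.Fdp

open Matrix
open scoped ComplexOrder InnerProductSpace TensorProduct

namespace Pool.Agent.Results.MP_74fcff_an.AllSizes

universe u

/-- The numerical range of a bounded operator. -/
def numRange {K : Type*} [NormedAddCommGroup K] [InnerProductSpace ℂ K] (T : K →L[ℂ] K) :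
    Set ℂ :=
  {z | ∃ x : K, ‖x‖ = 1 ∧ inner ℂ x (T x) = z}

/-- The numerical range `{x* A x : x* x = 1}` of a square matrix. -/
def matRange {n : ℕ} (A : Matrix (Fin n) (Fin n) ℂ) : Set ℂ :=
  {z | ∃ x : Fin n → ℂ, star x ⬝ᵥ x = 1 ∧ star x ⬝ᵥ (A *ᵥ x) = z}

/-- The matrix `A` as a linear map of `ℂ^n`. -/
noncomputable def matLin {n : ℕ} (A : Matrix (Fin n) (Fin n) ℂ) :
    EuclideanSpace ℂ (Fin n) →ₗ[ℂ] EuclideanSpace ℂ (Fin n) where
  toFun x := WithLp.toLp 2 (A *ᵥ x.ofLp)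
  map_add' x y := by rw [WithLp.ofLp_add, Matrix.mulVec_add, WithLp.toLp_add]
  map_smul' c x := by rw [WithLp.ofLp_smul, Matrix.mulVec_smul, WithLp.toLp_smul]; rfl

/-- The operator `I_H ⊗ A` on `H ⊗ ℂ^n`. -/
noncomputable def ampliation (H : Type u) [NormedAddCommGroup H] [InnerProductSpace ℂ H]
    {n : ℕ} (A : Matrix (Fin n) (Fin n) ℂ) :
    H ⊗[ℂ] EuclideanSpace ℂ (Fin n) →ₗ[ℂ] H ⊗[ℂ] EuclideanSpace ℂ (Fin n) :=
  LinearMap.lTensor H (matLin A)

/-- `T = X* (I_H ⊗ A) X` for a map `X : K → H ⊗ ℂ^n`. -/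
def IsCompression {K H : Type u} [NormedAddCommGroup K] [InnerProductSpace ℂ K]
    [NormedAddCommGroup H] [InnerProductSpace ℂ H] {n : ℕ} (A : Matrix (Fin n) (Fin n) ℂ)
    (T : K → K) (X : K → H ⊗[ℂ] EuclideanSpace ℂ (Fin n)) : Prop :=
  ∀ x y : K, inner ℂ (X y) (ampliation H A (X x)) = inner ℂ y (T x)

/-- There is a Hilbert space `H` and an isometry `X : K → H ⊗ ℂ^n` with `T = X* (I_H ⊗ A) X`. -/
def HasDilation {K : Type u} [NormedAddCommGroup K] [InnerProductSpace ℂ K]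
    {n : ℕ} (A : Matrix (Fin n) (Fin n) ℂ) (T : K → K) : Prop :=
  ∃ (H : Type u) (_ : NormedAddCommGroup H) (_ : InnerProductSpace ℂ H)
    (_ : CompleteSpace H) (X : K →ₗᵢ[ℂ] H ⊗[ℂ] EuclideanSpace ℂ (Fin n)), IsCompression A T X

/-- Property (D): every bounded operator `T` on a Hilbert space `K` with `W(T) ⊆ W(A)` is of the
form `X* (I_H ⊗ A) X` for a Hilbert space `H` and an isometry `X : K → H ⊗ ℂ^n`. -/
def PropertyD {n : ℕ} (A : Matrix (Fin n) (Fin n) ℂ) : Prop :=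
  ∀ (K : Type u) [NormedAddCommGroup K] [InnerProductSpace ℂ K] [CompleteSpace K]
    (T : K →L[ℂ] K), numRange T ⊆ matRange A → HasDilation A T

/-- `A` and its adjoint have no common eigenvector, that is, `A` is not unitarily similar to a
direct sum `[lam] ⊕ A₀`. -/
def NoCommonEigenvector {n : ℕ} (A : Matrix (Fin n) (Fin n) ℂ) : Prop :=
  ¬ ∃ x : Fin n → ℂ, x ≠ 0 ∧ ∃ a b : ℂ, A *ᵥ x = a • x ∧ Aᴴ *ᵥ x = b • x

/-- No compression of `A` to a hyperplane has the same numerical range. -/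
def IsMinimal {n : ℕ} (A : Matrix (Fin (n + 1)) (Fin (n + 1)) ℂ) : Prop :=
  ∀ V : Matrix (Fin (n + 1)) (Fin n) ℂ, Vᴴ * V = 1 → matRange (Vᴴ * A * V) ≠ matRange A

/-- For some `u ≠ 0` the Hermitian matrix `Re (u A)` is `lam I - g g*` with `lam` real and
`g ≠ 0`: all its eigenvalues but one, counted with multiplicity, are equal to `lam`, and the
remaining one is smaller. -/
def RankOneFace {n : ℕ} (A : Matrix (Fin n) (Fin n) ℂ) : Prop :=
  ∃ (u : ℂ) (lam : ℝ) (g : Fin n → ℂ), u ≠ 0 ∧ g ≠ 0 ∧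
    (u • A) + (u • A)ᴴ = (2 : ℂ) • ((lam : ℂ) • 1 - vecMulVec g (star g))

open Pool.Agent.Helper774 Pool.Agent.K3h28.NR

theorem propertyD_of_fin {n : ℕ} (A : Matrix (Fin n) (Fin n) ℂ) (h : FinPropD A) :
    PropertyD.{u} A := by
  intro K _ _ _ T hT
  obtain ⟨H, i1, i2, i3, X, hX⟩ := Pool.Agent.Helper774.exists_dilation A h T (by
    intro x hx
    exact hT ⟨x, hx, rfl⟩)
  exact ⟨H, i1, i2, i3, X, hX⟩

theorem fin_of_propertyD {n : ℕ} (A : Matrix (Fin n) (Fin n) ℂ) (hD : PropertyD.{u} A) :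
    FinPropD A := by
  apply Pool.Agent.K3h68.NR.t_FDP.{u} n A
  intro K _ _ _ T' hT'
  obtain ⟨H, i1, i2, i3, X, hX⟩ := hD K T' (by
    rintro z ⟨x, hx, rfl⟩
    exact hT' x hx)
  exact ⟨H, i1, i2, i3, X, hX⟩

theorem finPropD_of_rankOne {k : ℕ} (B : Matrix (Fin (k + 2)) (Fin (k + 2)) ℂ)
    (h : RankOneFace B) : FinPropD B := by
  obtain ⟨u, lam, g, hu, hg, he⟩ := h
  intro n T hT
  exact rankOne_FinDil B u hu lam g hg (by simp) he T hT

/-- Matrices of all sizes at least two. -/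
theorem result (n : ℕ) (A : Matrix (Fin (n + 2)) (Fin (n + 2)) ℂ) :
    ((∃ (k : ℕ) (V : Matrix (Fin (n + 2)) (Fin (k + 2)) ℂ), Vᴴ * V = 1 ∧
        matRange (Vᴴ * A * V) = matRange A ∧ RankOneFace (Vᴴ * A * V)) → PropertyD.{u} A) ∧
    (NoCommonEigenvector A → IsMinimal A → (PropertyD.{u} A ↔ RankOneFace A)) := by
  refine ⟨?_, ?_⟩
  · rintro ⟨k, V, hV, hW, hR⟩
    apply propertyD_of_fin
    exact FinPropD.transfer V hV (by rw [← show matRange A = MW A from rfl, ← hW]; rfl)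
      (finPropD_of_rankOne _ hR)
  · intro h1 h2
    refine ⟨?_, fun hR => propertyD_of_fin A (finPropD_of_rankOne A hR)⟩
    intro hD
    have hF := fin_of_propertyD A hD
    have hNC : NoCommon A := by
      intro x hx a b hab
      exact h1 ⟨x, hx, a, b, hab⟩
    have hSch := Pool.Agent.K3h24.NR.t_SCHUR Pool.Agent.K3h13.NR.t_MWI
    have hpen := Pool.Agent.K3h60.NR.t_PEN0 (n + 2) A (by omega) hNC
    obtain ⟨η, hη, hs⟩ := Pool.Agent.K3h90.NR.t_SPAN Pool.Agent.K3h13.NR.t_MWI (n + 1) A h2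
    have hlink : ∀ i j, i ≠ j → Linked A (η i) (η j) := by
      intro i j hij
      apply Pool.Agent.K3h23.NR.t_LINK hSch Pool.Agent.K3h60.NR.t_PEN0 (n + 2) A (by omega) hF hNC
        _ _ (hs i) (hs j)
      rintro ⟨c, hc⟩
      have h3 := hη.ne_zero j
      have h4 := linearIndependent_iff'.mp hη Finset.univ
        (fun k => if k = j then 1 else if k = i then -c else 0) (by
          rw [Finset.sum_eq_add_of_mem i j (Finset.mem_univ _) (Finset.mem_univ _) hij]
          · simp [hij, hc]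
          · intro k _ hk
            simp [hk.1, hk.2]) j (Finset.mem_univ j)
      simp at h4
    obtain ⟨p, g, hg, hp⟩ := main_of hSch t_COMP n A hF hpen η hη hs hlink
    have hw : p.2 ≠ 0 := by
      intro h0
      -- then `p.1 • 1 = g g*`, impossible in size at least two
      have hp' : (p.1 : ℂ) • (1 : Matrix (Fin (n + 2)) (Fin (n + 2)) ℂ) = vecMulVec g (star g) := by
        rw [← hp]
        unfold pen
        rw [h0]
        simp
      have h01 := congrFun (congrFun hp' 0) 1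
      have h00 := congrFun (congrFun hp' 0) 0
      have h11 := congrFun (congrFun hp' 1) 1
      rw [Matrix.smul_apply, vecMulVec_apply, Pi.star_apply, smul_eq_mul] at h01 h00 h11
      rw [Matrix.one_apply_ne (by simp), mul_zero] at h01
      rw [Matrix.one_apply_eq, mul_one] at h00 h11
      have hp1 : (p.1 : ℂ) = 0 := by
        rcases mul_eq_zero.mp h01.symm with h | h
        · rw [h00, h, zero_mul]
        · rw [h11, h, mul_zero]
      apply hg
      funext i
      have hii := congrFun (congrFun hp' i) i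
      rw [Matrix.smul_apply, vecMulVec_apply, Pi.star_apply, hp1, zero_smul] at hii
      rcases mul_eq_zero.mp hii.symm with h | h
      · exact h
      · exact star_eq_zero.mp h
    refine ⟨-p.2, p.1 / 2, fun i => ((Real.sqrt 2 : ℝ) : ℂ)⁻¹ * g i, neg_ne_zero.mpr hw, ?_, ?_⟩
    · intro h0
      apply hg
      funext i
      have := congrFun h0 i
      have hs2 : ((Real.sqrt 2 : ℝ) : ℂ)⁻¹ ≠ 0 := by
        apply inv_ne_zero
        exact_mod_cast (Real.sqrt_pos.mpr (by norm_num : (0 : ℝ) < 2)).ne'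
      exact (mul_eq_zero.mp this).resolve_left hs2
    · have e1 : vecMulVec (fun i => ((Real.sqrt 2 : ℝ) : ℂ)⁻¹ * g i)
          (star fun i => ((Real.sqrt 2 : ℝ) : ℂ)⁻¹ * g i) = (1 / 2 : ℂ) • pen A p := by
        rw [hp]
        ext i j
        rw [vecMulVec_apply, Matrix.smul_apply, vecMulVec_apply, Pi.star_apply, Pi.star_apply,
          star_mul', smul_eq_mul]
        have e2 : star (((Real.sqrt 2 : ℝ) : ℂ)⁻¹) = ((Real.sqrt 2 : ℝ) : ℂ)⁻¹ := by
          rw [star_inv₀, RCLike.star_def, Complex.conj_ofReal]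
        have e3 : ((Real.sqrt 2 : ℝ) : ℂ)⁻¹ * ((Real.sqrt 2 : ℝ) : ℂ)⁻¹ = 1 / 2 := by
          rw [← mul_inv, ← Complex.ofReal_mul, Real.mul_self_sqrt (by norm_num)]
          norm_num
        rw [e2]
        calc ((Real.sqrt 2 : ℝ) : ℂ)⁻¹ * g i * (((Real.sqrt 2 : ℝ) : ℂ)⁻¹ * star (g j))
            = (((Real.sqrt 2 : ℝ) : ℂ)⁻¹ * ((Real.sqrt 2 : ℝ) : ℂ)⁻¹) * (g i * star (g j)) := by
              ring
          _ = _ := by rw [e3]
      rw [e1]
      unfold pen
      rw [neg_smul, Matrix.conjTranspose_neg, smul_sub, smul_smul, smul_smul]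
      have e4 : (2 : ℂ) * ((p.1 / 2 : ℝ) : ℂ) = (p.1 : ℂ) := by
        push_cast
        ring
      have e5 : (2 : ℂ) * (1 / 2) = 1 := by norm_num
      rw [e4, e5, one_smul]
      abel

end Pool.Agent.Results.MP_74fcff_an.AllSizes
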