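import Mathlib
import Pool.Agent.K3h28.NR.SimD
import Pool.Agent.K3h68.NR.Fdp

open Matrix
open scoped ComplexOrder InnerProductSpace TensorProduct

namespace Pool.Agent.Results.MP_74fcff_an.DenseSimpleDirections

universe u

/-- The numerical range of a bounded operator. -/
def numRange {K : Type*} [NormedAddCommGroup K] [InnerProductSpace ℂ K] (T : K →L[ℂ] K) :
    Set ℂ :=
  {z | ∃ x : K, ‖x‖ = 1 ∧ inner ℂ x (T x) = z}

/-- The numerical range `{x* A x : x* x = 1}` of a square matrix. -/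
def matRange {n : ℕ} (A : Matrix (Fin n) (Fin n) ℂ) : Set ℂ :=
  {z | ∃ x : Fin n → ℂ, star x ⬝ᵥ x = 1 ∧ star x ⬝ᵥ (A *ᵥ x) = z}

/-- The matrix `A` as a linear map of `ℂ^n`. -/
noncomputable def matLin {n : ℕ} (A : Matrix (Fin n) (Fin n) ℂ) :
    EuclideanSpace ℂ (Fin n) →ₗ[ℂ] EuclideanSpace ℂ (Fin n) where
  toFun x := WithLp.toLp 2 (A *ᵥ x.ofLp)
  map_add' x y := by rw [WithLp.ofLp_add, Matrix.mulVec_add, WithLp.toLp_add]
  map_smul' c x := by rw [WithLp.ofLp_smul, Matrix.mulVec_smul, WithLp.toLp_smul]; rfl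

/-- The operator `I_H ⊗ A` on `H ⊗ ℂ^n`. -/
noncomputable def ampliation (H : Type u) [NormedAddCommGroup H] [InnerProductSpace ℂ H]
    {n : ℕ} (A : Matrix (Fin n) (Fin n) ℂ) :
    H ⊗[ℂ] EuclideanSpace ℂ (Fin n) →ₗ[ℂ] H ⊗[ℂ] EuclideanSpace ℂ (Fin n) :=
  LinearMap.lTensor H (matLin A)

/-- `T = X* (I_H ⊗ A) X` for a map `X : K → H ⊗ ℂ^n`. -/
def IsCompression {K H : Type u} [NormedAddCommGroup K] [InnerProductSpace ℂ K]
    [NormedAddCommGroup H] [InnerProductSpace ℂ H] {n : ℕ} (A : Matrix (Fin n) (Fin n) ℂ)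
    (T : K → K) (X : K → H ⊗[ℂ] EuclideanSpace ℂ (Fin n)) : Prop :=
  ∀ x y : K, inner ℂ (X y) (ampliation H A (X x)) = inner ℂ y (T x)

/-- There is a Hilbert space `H` and an isometry `X : K → H ⊗ ℂ^n` with `T = X* (I_H ⊗ A) X`. -/
def HasDilation {K : Type u} [NormedAddCommGroup K] [InnerProductSpace ℂ K]
    {n : ℕ} (A : Matrix (Fin n) (Fin n) ℂ) (T : K → K) : Prop :=
  ∃ (H : Type u) (_ : NormedAddCommGroup H) (_ : InnerProductSpace ℂ H)
    (_ : CompleteSpace H) (X : K →ₗᵢ[ℂ] H ⊗[ℂ] EuclideanSpace ℂ (Fin n)), IsCompression A T X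

/-- Property (D): every bounded operator `T` on a Hilbert space `K` with `W(T) ⊆ W(A)` is of the
form `X* (I_H ⊗ A) X` for a Hilbert space `H` and an isometry `X : K → H ⊗ ℂ^n`. -/
def PropertyD {n : ℕ} (A : Matrix (Fin n) (Fin n) ℂ) : Prop :=
  ∀ (K : Type u) [NormedAddCommGroup K] [InnerProductSpace ℂ K] [CompleteSpace K]
    (T : K →L[ℂ] K), numRange T ⊆ matRange A → HasDilation A T

/-- `A` and its adjoint have no common eigenvector, that is, `A` is not unitarily similar to a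
direct sum `[lam] ⊕ A₀`. -/
def NoCommonEigenvector {n : ℕ} (A : Matrix (Fin n) (Fin n) ℂ) : Prop :=
  ¬ ∃ x : Fin n → ℂ, x ≠ 0 ∧ ∃ a b : ℂ, A *ᵥ x = a • x ∧ Aᴴ *ᵥ x = b • x

/-- The largest eigenvalue of the Hermitian matrix `u A + (u A)*` is simple. -/
def TopSimple {n : ℕ} (A : Matrix (Fin n) (Fin n) ℂ) (u : ℂ) : Prop :=
  ∀ lam : ℝ, ((lam : ℂ) • 1 - (u • A + (u • A)ᴴ)).PosSemidef →
    ∀ x y : Fin n → ℂ, (u • A + (u • A)ᴴ) *ᵥ x = (lam : ℂ) • x →
      (u • A + (u • A)ᴴ) *ᵥ y = (lam : ℂ) • y → x ≠ 0 → ∃ c : ℂ, y = c • x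

/-- The set of all complex numbers `u` for which the largest eigenvalue of `u A + (u A)*` is
simple is dense in the plane. -/
def DenselySimple {n : ℕ} (A : Matrix (Fin n) (Fin n) ℂ) : Prop :=
  Dense {u : ℂ | TopSimple A u}

/-- For some `u ≠ 0` the Hermitian matrix `Re (u A)` is `lam I - g g*` with `lam` real and
`g ≠ 0`: all its eigenvalues but one, counted with multiplicity, are equal to `lam`, and the
remaining one is smaller. -/
def RankOneFace {n : ℕ} (A : Matrix (Fin n) (Fin n) ℂ) : Prop :=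
  ∃ (u : ℂ) (lam : ℝ) (g : Fin n → ℂ), u ≠ 0 ∧ g ≠ 0 ∧
    (u • A) + (u • A)ᴴ = (2 : ℂ) • ((lam : ℂ) • 1 - vecMulVec g (star g))

open Pool.Agent.Helper774 Pool.Agent.K3h28.NR

theorem propertyD_of_fin {n : ℕ} (A : Matrix (Fin n) (Fin n) ℂ) (h : FinPropD A) :
    PropertyD.{u} A := by
  intro K _ _ _ T hT
  obtain ⟨H, i1, i2, i3, X, hX⟩ := Pool.Agent.Helper774.exists_dilation A h T (by
    intro x hx
    exact hT ⟨x, hx, rfl⟩)
  exact ⟨H, i1, i2, i3, X, hX⟩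

theorem fin_of_propertyD {n : ℕ} (A : Matrix (Fin n) (Fin n) ℂ) (hD : PropertyD.{u} A) :
    FinPropD A := by
  apply Pool.Agent.K3h68.NR.t_FDP.{u} n A
  intro K _ _ _ T' hT'
  obtain ⟨H, i1, i2, i3, X, hX⟩ := hD K T' (by
    rintro z ⟨x, hx, rfl⟩
    exact hT' x hx)
  exact ⟨H, i1, i2, i3, X, hX⟩

theorem finPropD_of_rankOne {k : ℕ} (B : Matrix (Fin (k + 2)) (Fin (k + 2)) ℂ)
    (h : RankOneFace B) : FinPropD B := by
  obtain ⟨u, lam, g, hu, hg, he⟩ := h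
  intro n T hT
  exact rankOne_FinDil B u hu lam g hg (by simp) he T hT

theorem rankOneFace_of_pen {k : ℕ} (B : Matrix (Fin (k + 2)) (Fin (k + 2)) ℂ) (p : ℝ × ℂ)
    (g : Fin (k + 2) → ℂ) (hg : g ≠ 0) (hp : pen B p = vecMulVec g (star g)) :
    RankOneFace B := by
  have hw : p.2 ≠ 0 := not_scalar_rankOne B p g hg hp
  refine ⟨-p.2, p.1 / 2, fun i => ((Real.sqrt 2 : ℝ) : ℂ)⁻¹ * g i, neg_ne_zero.mpr hw, ?_, ?_⟩
  · intro h0
    apply hg
    funext i
    have := congrFun h0 i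
    have hs2 : ((Real.sqrt 2 : ℝ) : ℂ)⁻¹ ≠ 0 := by
      apply inv_ne_zero
      exact_mod_cast (Real.sqrt_pos.mpr (by norm_num : (0 : ℝ) < 2)).ne'
    exact (mul_eq_zero.mp this).resolve_left hs2
  · have e1 : vecMulVec (fun i => ((Real.sqrt 2 : ℝ) : ℂ)⁻¹ * g i)
        (star fun i => ((Real.sqrt 2 : ℝ) : ℂ)⁻¹ * g i) = (1 / 2 : ℂ) • pen B p := by
      rw [hp]
      ext i j
      rw [vecMulVec_apply, Matrix.smul_apply, vecMulVec_apply, Pi.star_apply, Pi.star_apply,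
        star_mul', smul_eq_mul]
      have e2 : star (((Real.sqrt 2 : ℝ) : ℂ)⁻¹) = ((Real.sqrt 2 : ℝ) : ℂ)⁻¹ := by
        rw [star_inv₀, RCLike.star_def, Complex.conj_ofReal]
      have e3 : ((Real.sqrt 2 : ℝ) : ℂ)⁻¹ * ((Real.sqrt 2 : ℝ) : ℂ)⁻¹ = 1 / 2 := by
        rw [← mul_inv, ← Complex.ofReal_mul, Real.mul_self_sqrt (by norm_num)]
        norm_num
      rw [e2]
      calc ((Real.sqrt 2 : ℝ) : ℂ)⁻¹ * g i * (((Real.sqrt 2 : ℝ) : ℂ)⁻¹ * star (g j))
          = (((Real.sqrt 2 : ℝ) : ℂ)⁻¹ * ((Real.sqrt 2 : ℝ) : ℂ)⁻¹) * (g i * star (g j)) := by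
            ring
        _ = _ := by rw [e3]
    rw [e1]
    unfold pen
    rw [neg_smul, Matrix.conjTranspose_neg, smul_sub, smul_smul, smul_smul]
    have e4 : (2 : ℂ) * ((p.1 / 2 : ℝ) : ℂ) = (p.1 : ℂ) := by
      push_cast
      ring
    have e5 : (2 : ℂ) * (1 / 2) = 1 := by norm_num
    rw [e4, e5, one_smul]
    abel

theorem simpleDir_of {n : ℕ} (A : Matrix (Fin n) (Fin n) ℂ) (u : ℂ) (h : TopSimple A (-u)) :
    SimpleDir A u := by
  intro a hp x y hx hy hx0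
  have e : pen A (a, u) = (a : ℂ) • 1 - ((-u) • A + ((-u) • A)ᴴ) := by
    unfold pen
    rw [neg_smul, Matrix.conjTranspose_neg]
    abel
  have hk : ∀ z, pen A (a, u) *ᵥ z = 0 → ((-u) • A + ((-u) • A)ᴴ) *ᵥ z = (a : ℂ) • z := by
    intro z hz
    rw [e, Matrix.sub_mulVec, Matrix.smul_mulVec, Matrix.one_mulVec] at hz
    exact (sub_eq_zero.mp hz).symm
  exact h a (by rw [← e]; exact hp) x y (hk x hx) (hk y hy) hx0

/-- Matrices of size at least two without common eigenvector with the adjoint, whose top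
eigenvalue is simple in a dense set of directions. -/
theorem result (n : ℕ) (A : Matrix (Fin (n + 2)) (Fin (n + 2)) ℂ)
    (h1 : NoCommonEigenvector A) (h2 : DenselySimple A) :
    PropertyD.{u} A ↔ ∃ (k : ℕ) (V : Matrix (Fin (n + 2)) (Fin (k + 2)) ℂ), Vᴴ * V = 1 ∧
      matRange (Vᴴ * A * V) = matRange A ∧ RankOneFace (Vᴴ * A * V) := by
  constructor
  · intro hD
    have hNC : NoCommon A := by
      intro x hx a b hab
      exact h1 ⟨x, hx, a, b, hab⟩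
    have hd : Dense {w : ℂ | SimpleDir A w} := by
      have h3 : Dense ((fun w : ℂ => -w) ⁻¹' {u : ℂ | TopSimple A u}) :=
        h2.preimage (Homeomorph.neg ℂ).isOpenMap
      exact h3.mono fun w hw => simpleDir_of A w hw
    obtain ⟨k, V, hV, hW, p, g, hg, hpg⟩ := dense_main n A (fin_of_propertyD A hD) hNC hd
    exact ⟨k, V, hV, hW, rankOneFace_of_pen _ p g hg hpg⟩
  · rintro ⟨k, V, hV, hW, hR⟩
    apply propertyD_of_fin
    exact FinPropD.transfer V hV (by rw [← show matRange A = MW A from rfl, ← hW]; rfl)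
      (finPropD_of_rankOne _ hR)

end Pool.Agent.Results.MP_74fcff_an.DenseSimpleDirections
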