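import Mathlib
import Pool.Agent.K3h28.NR.SimC
import Pool.Agent.K3h68.NR.Fdp

open Matrix
open scoped ComplexOrder InnerProductSpace TensorProduct

namespace Pool.Agent.Results.MP_74fcff_an.SimpleBoundary

universe u

/-- The numerical range of a bounded operator. -/
def numRange {K : Type*} [NormedAddCommGroup K] [InnerProductSpace ℂ K] (T : K →L[ℂ] K) :
    Set ℂ :=
  {z | ∃ x : K, ‖x‖ = 1 ∧ inner ℂ x (T x) = z}

/-- The numerical range `{x* A x : x* x = 1}` of a square matrix. -/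
def matRange {n : ℕ} (A : Matrix (Fin n) (Fin n) ℂ) : Set ℂ :=
  {z | ∃ x : Fin n → ℂ, star x ⬝ᵥ x = 1 ∧ star x ⬝ᵥ (A *ᵥ x) = z}

/-- The matrix `A` as a linear map of `ℂ^n`. -/
noncomputable def matLin {n : ℕ} (A : Matrix (Fin n) (Fin n) ℂ) :
    EuclideanSpace ℂ (Fin n) →ₗ[ℂ] EuclideanSpace ℂ (Fin n) where
  toFun x := WithLp.toLp 2 (A *ᵥ x.ofLp)
  map_add' x y := by rw [WithLp.ofLp_add, Matrix.mulVec_add, WithLp.toLp_add]
  map_smul' c x := by rw [WithLp.ofLp_smul, Matrix.mulVec_smul, WithLp.toLp_smul]; rfl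

/-- The operator `I_H ⊗ A` on `H ⊗ ℂ^n`. -/
noncomputable def ampliation (H : Type u) [NormedAddCommGroup H] [InnerProductSpace ℂ H]
    {n : ℕ} (A : Matrix (Fin n) (Fin n) ℂ) :
    H ⊗[ℂ] EuclideanSpace ℂ (Fin n) →ₗ[ℂ] H ⊗[ℂ] EuclideanSpace ℂ (Fin n) :=
  LinearMap.lTensor H (matLin A)

/-- `T = X* (I_H ⊗ A) X` for a map `X : K → H ⊗ ℂ^n`. -/
def IsCompression {K H : Type u} [NormedAddCommGroup K] [InnerProductSpace ℂ K]
    [NormedAddCommGroup H] [InnerProductSpace ℂ H] {n : ℕ} (A : Matrix (Fin n) (Fin n) ℂ)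
    (T : K → K) (X : K → H ⊗[ℂ] EuclideanSpace ℂ (Fin n)) : Prop :=
  ∀ x y : K, inner ℂ (X y) (ampliation H A (X x)) = inner ℂ y (T x)

/-- There is a Hilbert space `H` and an isometry `X : K → H ⊗ ℂ^n` with `T = X* (I_H ⊗ A) X`. -/
def HasDilation {K : Type u} [NormedAddCommGroup K] [InnerProductSpace ℂ K]
    {n : ℕ} (A : Matrix (Fin n) (Fin n) ℂ) (T : K → K) : Prop :=
  ∃ (H : Type u) (_ : NormedAddCommGroup H) (_ : InnerProductSpace ℂ H)
    (_ : CompleteSpace H) (X : K →ₗᵢ[ℂ] H ⊗[ℂ] EuclideanSpace ℂ (Fin n)), IsCompression A T X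

/-- Property (D): every bounded operator `T` on a Hilbert space `K` with `W(T) ⊆ W(A)` is of the
form `X* (I_H ⊗ A) X` for a Hilbert space `H` and an isometry `X : K → H ⊗ ℂ^n`. -/
def PropertyD {n : ℕ} (A : Matrix (Fin n) (Fin n) ℂ) : Prop :=
  ∀ (K : Type u) [NormedAddCommGroup K] [InnerProductSpace ℂ K] [CompleteSpace K]
    (T : K →L[ℂ] K), numRange T ⊆ matRange A → HasDilation A T

/-- For every `u ≠ 0` the largest eigenvalue of the Hermitian matrix `u A + (u A)*` is simple. -/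
def HasSimpleBoundary {n : ℕ} (A : Matrix (Fin n) (Fin n) ℂ) : Prop :=
  ∀ (u : ℂ) (lam : ℝ), u ≠ 0 → ((lam : ℂ) • 1 - (u • A + (u • A)ᴴ)).PosSemidef →
    ∀ x y : Fin n → ℂ, (u • A + (u • A)ᴴ) *ᵥ x = (lam : ℂ) • x →
      (u • A + (u • A)ᴴ) *ᵥ y = (lam : ℂ) • y → x ≠ 0 → ∃ c : ℂ, y = c • x

/-- `A` is unitarily similar to a direct sum `A₀ ⊕ A₁` with `A₀` of size two and
`W(A₀) = W(A)`: the columns of `V` span a subspace of dimension two that reduces `A`, and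
`A₀ = V* A V`. -/
def SplitsOffTwo {n : ℕ} (A : Matrix (Fin n) (Fin n) ℂ) : Prop :=
  ∃ V : Matrix (Fin n) (Fin 2) ℂ, Vᴴ * V = 1 ∧ A * V = V * (Vᴴ * A * V) ∧
    Aᴴ * V = V * (Vᴴ * Aᴴ * V) ∧ matRange (Vᴴ * A * V) = matRange A

open Pool.Agent.Helper774 Pool.Agent.K3h28.NR

theorem propertyD_of_fin {n : ℕ} (A : Matrix (Fin n) (Fin n) ℂ) (h : FinPropD A) :
    PropertyD.{u} A := by
  intro K _ _ _ T hT
  obtain ⟨H, i1, i2, i3, X, hX⟩ := Pool.Agent.Helper774.exists_dilation A h T (by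
    intro x hx
    exact hT ⟨x, hx, rfl⟩)
  exact ⟨H, i1, i2, i3, X, hX⟩

theorem fin_of_propertyD {n : ℕ} (A : Matrix (Fin n) (Fin n) ℂ) (hD : PropertyD.{u} A) :
    FinPropD A := by
  apply Pool.Agent.K3h68.NR.t_FDP.{u} n A
  intro K _ _ _ T' hT'
  obtain ⟨H, i1, i2, i3, X, hX⟩ := hD K T' (by
    rintro z ⟨x, hx, rfl⟩
    exact hT' x hx)
  exact ⟨H, i1, i2, i3, X, hX⟩

theorem sb_of {n : ℕ} (A : Matrix (Fin n) (Fin n) ℂ) (h : HasSimpleBoundary A) : SB A := by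
  intro p hp2 hp x y hx hy hx0
  have e : pen A p = ((p.1 : ℝ) : ℂ) • 1 - ((-p.2) • A + ((-p.2) • A)ᴴ) := by
    unfold pen
    rw [neg_smul, Matrix.conjTranspose_neg]
    abel
  have hk : ∀ z, pen A p *ᵥ z = 0 → ((-p.2) • A + ((-p.2) • A)ᴴ) *ᵥ z = ((p.1 : ℝ) : ℂ) • z := by
    intro z hz
    rw [e, Matrix.sub_mulVec, Matrix.smul_mulVec, Matrix.one_mulVec] at hz
    exact (sub_eq_zero.mp hz).symm
  exact h (-p.2) p.1 (neg_ne_zero.mpr hp2) (by rw [← e]; exact hp) x y (hk x hx) (hk y hy) hx0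

/-- Matrices of size at least two with simple boundary eigenvalues. -/
theorem result (n : ℕ) (A : Matrix (Fin (n + 2)) (Fin (n + 2)) ℂ)
    (h : HasSimpleBoundary A) : PropertyD.{u} A ↔ SplitsOffTwo A := by
  constructor
  · intro hD
    exact simple_main' n A (fin_of_propertyD A hD) (sb_of A h)
  · rintro ⟨V, hV, -, -, hW⟩
    apply propertyD_of_fin
    exact FinPropD.transfer V hV (by rw [← show matRange A = MW A from rfl, ← hW]; rfl)
      (finPropD_two _)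

end Pool.Agent.Results.MP_74fcff_an.SimpleBoundary
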